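import Pool.Agent.H14.SspT62
import Pool.Agent.H14.SspUni

set_option autoImplicit false

namespace Pool.Agent.Results.MP_34deb4_co.Tadpole

open Pool.Agent.H14 Pool.Agent.H14.Q Pool.Agent.H14.SspT62 SimpleGraph

def c : G.Walk 0 0 :=
  .cons (v := 1) (by decide) <| .cons (v := 2) (by decide) <| .cons (v := 3) (by decide) <|
  .cons (v := 4) (by decide) <| .cons (v := 5) (by decide) <| .cons (v := 0) (by decide) .nil

theorem result : ∃ (n g : ℕ) (G : SimpleGraph (Fin n)), 6 ≤ g ∧ Unicyclic G g ∧ SSPGraph G :=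
  ⟨8, 6, G, le_rfl, uni G (conn3 G 0 (by decide)) (by decide) c
    (by rw [Walk.isCycle_def, Walk.isTrail_def]; decide), ssp⟩

end Pool.Agent.Results.MP_34deb4_co.Tadpole
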